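import Pool.Agent.W92.ET.Base

/-!
# Project ET, part PHIREC: recurrences for the integrals of `1 / (y + cosh τ) ^ (m + 1)`
-/

set_option autoImplicit false

open MeasureTheory Filter Topology

namespace Pool.Agent.W446.ET

open Pool.Agent.W92.ET

noncomputable section

theorem S_pos {y : ℝ} (hy : 1 < y) (τ : ℝ) : 1 < y + Real.cosh τ := by
  have := Real.one_le_cosh τ
  linarith

theorem cosh_ge (τ : ℝ) : Real.exp τ / 2 ≤ Real.cosh τ := by
  rw [Real.cosh_eq]
  have := Real.exp_pos (-τ)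
  linarith

theorem S_atTop (y : ℝ) : Tendsto (fun τ : ℝ => y + Real.cosh τ) atTop atTop := by
  refine tendsto_atTop_add_const_left _ y ?_
  exact tendsto_atTop_mono cosh_ge (Real.tendsto_exp_atTop.atTop_div_const (by norm_num))

theorem integrable {y : ℝ} (hy : 1 < y) (m : ℕ) :
    IntegrableOn (fun τ : ℝ => 1 / (y + Real.cosh τ) ^ (m + 1)) (Set.Ioi 0) := by
  have h1 : IntegrableOn (fun τ : ℝ => 2 * Real.exp (-τ)) (Set.Ioi 0) :=
    (integrableOn_exp_neg_Ioi 0).const_mul 2
  refine Integrable.mono' h1 ?_ ?_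
  · refine Continuous.aestronglyMeasurable ?_
    refine continuous_const.div ?_ ?_
    · exact (continuous_const.add Real.continuous_cosh).pow _
    · intro τ
      have := S_pos hy τ
      positivity
  · refine Filter.Eventually.of_forall fun τ => ?_
    have h2 := S_pos hy τ
    have h3 : 0 < y + Real.cosh τ := by linarith
    rw [Real.norm_eq_abs, abs_of_pos (by positivity)]
    have h4 : y + Real.cosh τ ≤ (y + Real.cosh τ) ^ (m + 1) :=
      le_self_pow₀ h2.le (by omega)
    have h5 : Real.exp τ / 2 ≤ (y + Real.cosh τ) ^ (m + 1) := by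
      have := cosh_ge τ
      linarith
    calc 1 / (y + Real.cosh τ) ^ (m + 1) ≤ 1 / (Real.exp τ / 2) :=
          one_div_le_one_div_of_le (by positivity) h5
      _ = 2 * Real.exp (-τ) := by
          rw [Real.exp_neg]; field_simp

/-- the limit of `sinh τ / (y + cosh τ)` -/
theorem lim_one (y : ℝ) (hy : 1 < y) :
    Tendsto (fun τ : ℝ => Real.sinh τ / (y + Real.cosh τ)) atTop (𝓝 1) := by
  have h1 : ∀ τ : ℝ, Real.sinh τ / (y + Real.cosh τ) =
      1 - (y + Real.exp (-τ)) * (y + Real.cosh τ)⁻¹ := by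
    intro τ
    have h2 : 0 < y + Real.cosh τ := by linarith [S_pos hy τ]
    have h3 : Real.sinh τ = Real.cosh τ - Real.exp (-τ) := by
      rw [Real.sinh_eq, Real.cosh_eq]; ring
    rw [h3]
    field_simp
    ring
  simp_rw [h1]
  have h4 : Tendsto (fun τ : ℝ => (y + Real.exp (-τ)) * (y + Real.cosh τ)⁻¹) atTop
      (𝓝 ((y + 0) * 0)) := by
    refine Tendsto.mul ?_ ?_
    · exact tendsto_const_nhds.add Real.tendsto_exp_neg_atTop_nhds_zero
    · exact (S_atTop y).inv_tendsto_atTop
  have h5 := (tendsto_const_nhds (x := (1 : ℝ))).sub h4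
  simpa using h5

theorem lim_zero (y : ℝ) (hy : 1 < y) (l : ℕ) :
    Tendsto (fun τ : ℝ => Real.sinh τ / (y + Real.cosh τ) ^ (l + 2)) atTop (𝓝 0) := by
  have h1 : ∀ τ : ℝ, Real.sinh τ / (y + Real.cosh τ) ^ (l + 2) =
      Real.sinh τ / (y + Real.cosh τ) * ((y + Real.cosh τ)⁻¹) ^ (l + 1) := by
    intro τ
    have h2 : 0 < y + Real.cosh τ := by linarith [S_pos hy τ]
    rw [inv_pow, pow_succ (y + Real.cosh τ) (l + 1)]
    field_simp
  simp_rw [h1]
  have h2 : Tendsto (fun τ : ℝ => ((y + Real.cosh τ)⁻¹) ^ (l + 1)) atTop (𝓝 (0 ^ (l + 1))) :=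
    ((S_atTop y).inv_tendsto_atTop).pow (l + 1)
  have h3 := (lim_one y hy).mul h2
  simpa using h3

theorem phirec : S_Phirec := by
  intro y hy
  refine ⟨fun m => integrable hy m, ?_, ?_⟩
  · have hd : ∀ τ ∈ Set.Ioi (0 : ℝ), HasDerivAt (fun τ : ℝ => Real.sinh τ / (y + Real.cosh τ))
        (y * (1 / (y + Real.cosh τ) ^ (0 + 1)) - (y ^ 2 - 1) * (1 / (y + Real.cosh τ) ^ (1 + 1)))
        τ := by
      intro τ _
      have h0 : y + Real.cosh τ ≠ 0 := by linarith [S_pos hy τ]
      have h1 := (Real.hasDerivAt_sinh τ).div ((Real.hasDerivAt_cosh τ).const_add y) h0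
      refine h1.congr_deriv ?_
      have h2 : Real.sinh τ * Real.sinh τ = Real.cosh τ ^ 2 - 1 := by
        have := Real.cosh_sq τ
        nlinarith
      rw [h2]
      field_simp
      ring
    have hint : IntegrableOn (fun τ : ℝ => y * (1 / (y + Real.cosh τ) ^ (0 + 1)) -
        (y ^ 2 - 1) * (1 / (y + Real.cosh τ) ^ (1 + 1))) (Set.Ioi 0) :=
      ((integrable hy 0).const_mul y).sub ((integrable hy 1).const_mul _)
    have h := integral_Ioi_of_hasDerivAt_of_tendsto (a := 0)
      (f := fun τ : ℝ => Real.sinh τ / (y + Real.cosh τ)) ?_ hd hint (lim_one y hy)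
    · rw [integral_sub ((integrable hy 0).const_mul y) ((integrable hy 1).const_mul _),
        integral_const_mul, integral_const_mul] at h
      have h3 : y * Phi 0 y - (y ^ 2 - 1) * Phi 1 y = 1 - Real.sinh 0 / (y + Real.cosh 0) := h
      rw [Real.sinh_zero, zero_div, sub_zero] at h3
      linarith
    · refine ContinuousAt.continuousWithinAt ?_
      have h0 : y + Real.cosh 0 ≠ 0 := by linarith [S_pos hy 0]
      exact (Real.continuous_sinh.continuousAt).div
        ((continuous_const.add Real.continuous_cosh).continuousAt) h0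
  · intro l
    have hd : ∀ τ ∈ Set.Ioi (0 : ℝ),
        HasDerivAt (fun τ : ℝ => Real.sinh τ / (y + Real.cosh τ) ^ (l + 2))
        ((2 * (l : ℝ) + 3) * y * (1 / (y + Real.cosh τ) ^ (l + 1 + 1)) -
          ((l : ℝ) + 1) * (1 / (y + Real.cosh τ) ^ (l + 1)) -
          ((l : ℝ) + 2) * (y ^ 2 - 1) * (1 / (y + Real.cosh τ) ^ (l + 2 + 1))) τ := by
      intro τ _
      have h0 : y + Real.cosh τ ≠ 0 := by linarith [S_pos hy τ]
      have h1 := (Real.hasDerivAt_sinh τ).div
        (((Real.hasDerivAt_cosh τ).const_add y).pow (l + 2)) (pow_ne_zero (l + 2) h0)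
      refine h1.congr_deriv ?_
      have h2 : Real.sinh τ ^ 2 = Real.cosh τ ^ 2 - 1 := by
        have := Real.cosh_sq τ
        linarith
      have h3 : Real.cosh τ * (y + Real.cosh τ) ^ (l + 2) -
          Real.sinh τ * (((l + 2 : ℕ) : ℝ) * (y + Real.cosh τ) ^ (l + 2 - 1) * Real.sinh τ) =
          (y + Real.cosh τ) ^ (l + 1) * (Real.cosh τ * (y + Real.cosh τ) -
            ((l : ℝ) + 2) * (Real.cosh τ ^ 2 - 1)) := by
        rw [← h2, show l + 2 - 1 = l + 1 from rfl]
        push_cast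
        ring
      simp only [Pi.pow_apply] at *
      rw [h3]
      field_simp
      ring
    have i1 := (integrable hy (l + 1)).const_mul ((2 * (l : ℝ) + 3) * y)
    have i2 := (integrable hy l).const_mul ((l : ℝ) + 1)
    have i3 := (integrable hy (l + 2)).const_mul (((l : ℝ) + 2) * (y ^ 2 - 1))
    have i12 : IntegrableOn (fun τ : ℝ => (2 * (l : ℝ) + 3) * y *
        (1 / (y + Real.cosh τ) ^ (l + 1 + 1)) - ((l : ℝ) + 1) * (1 / (y + Real.cosh τ) ^ (l + 1)))
        (Set.Ioi 0) := i1.sub i2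
    have i123 : IntegrableOn (fun τ : ℝ => (2 * (l : ℝ) + 3) * y *
        (1 / (y + Real.cosh τ) ^ (l + 1 + 1)) - ((l : ℝ) + 1) * (1 / (y + Real.cosh τ) ^ (l + 1)) -
        ((l : ℝ) + 2) * (y ^ 2 - 1) * (1 / (y + Real.cosh τ) ^ (l + 2 + 1)))
        (Set.Ioi 0) := i12.sub i3
    have h := integral_Ioi_of_hasDerivAt_of_tendsto (a := 0)
      (f := fun τ : ℝ => Real.sinh τ / (y + Real.cosh τ) ^ (l + 2)) ?_ hd i123
      (lim_zero y hy l)
    · rw [integral_sub i12 i3, integral_sub i1 i2, integral_const_mul, integral_const_mul,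
        integral_const_mul] at h
      have h3 : (2 * (l : ℝ) + 3) * y * Phi (l + 1) y - ((l : ℝ) + 1) * Phi l y -
          ((l : ℝ) + 2) * (y ^ 2 - 1) * Phi (l + 2) y =
          0 - Real.sinh 0 / (y + Real.cosh 0) ^ (l + 2) := h
      rw [Real.sinh_zero, zero_div, sub_zero] at h3
      linarith
    · refine ContinuousAt.continuousWithinAt ?_
      have h0 : y + Real.cosh 0 ≠ 0 := by linarith [S_pos hy 0]
      exact (Real.continuous_sinh.continuousAt).div
        (((continuous_const.add Real.continuous_cosh).pow (l + 2)).continuousAt)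
        (pow_ne_zero (l + 2) h0)

end

end Pool.Agent.W446.ET
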